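import Mathlib
import Pool.Agent.Lib.MP_2900b9_lc.PSP
import Pool.Agent.Lib.MP_2900b9_lc.Game

set_option autoImplicit false

namespace Pool.Agent.Results.MP_2900b9_lc.PerfectSetProperty

open Set MeasureTheory Topology Filter
open Pool.Agent.Lib.MP_2900b9_lc

/-- the range of a continuous injection of the Cantor space is perfect -/
lemma perfect_range {e : (ℕ → Bool) → (ℕ → ℕ)} (he : Continuous e) (hinj : Function.Injective e) :
    Perfect (range e) := by
  refine ⟨(isCompact_range he).isClosed, ?_⟩
  rintro _ ⟨α, rfl⟩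
  rw [accPt_iff_nhds]
  intro U hU
  obtain ⟨V, hVU, hV, hαV⟩ := mem_nhds_iff.1 hU
  obtain ⟨β, hβ, hne⟩ := (dense_iff_inter_open.1 (dense_compl_point α)) _ (hV.preimage he)
    ⟨α, hαV⟩
  exact ⟨e β, ⟨hVU hβ, mem_range_self β⟩, fun h => hne (hinj h)⟩

/-- If any two non-Borel analytic subsets of the Baire space are comparable under continuous
reductions, then every coanalytic set is countable or contains a nonempty perfect set, and all
perfect set games with coanalytic winning condition are determined. -/
theorem result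
    (hcomp : ∀ A B : Set (ℕ → ℕ),
      AnalyticSet A → ¬ @MeasurableSet (ℕ → ℕ) (borel (ℕ → ℕ)) A →
      AnalyticSet B → ¬ @MeasurableSet (ℕ → ℕ) (borel (ℕ → ℕ)) B →
      (∃ f : (ℕ → ℕ) → (ℕ → ℕ), Continuous f ∧ ∀ x, x ∈ B ↔ f x ∈ A) ∨
      (∃ f : (ℕ → ℕ) → (ℕ → ℕ), Continuous f ∧ ∀ x, x ∈ A ↔ f x ∈ B)) :
    (∀ X : Set (ℕ → ℕ), AnalyticSet Xᶜ →
      X.Countable ∨ ∃ K : Set (ℕ → ℕ), K ⊆ X ∧ K.Nonempty ∧ Perfect K) ∧
    (∀ X : Set (ℕ → Bool), AnalyticSet Xᶜ →
      AnalyticSet {z : ℕ → ℕ | outcome z ∉ X} ∧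
      ((∃ σ : List ℕ → ℕ, ∀ z : ℕ → ℕ,
          (∀ n : ℕ, z (2 * n) = σ (List.ofFn fun i : Fin (2 * n) => z i.val)) →
            z ∈ {z : ℕ → ℕ | outcome z ∉ X}) ∨
        (∃ τ : List ℕ → ℕ, ∀ z : ℕ → ℕ,
          (∀ n : ℕ, z (2 * n + 1) = τ (List.ofFn fun i : Fin (2 * n + 1) => z i.val)) →
            z ∉ {z : ℕ → ℕ | outcome z ∉ X}))) := by
  refine ⟨fun X hX => ?_, fun X hX => ⟨?_, ?_⟩⟩
  · by_cases hc : X.Countable
    · exact Or.inl hc
    · obtain ⟨e, he, hinj, heX⟩ := perfect_set_property hcomp hX hc
      refine Or.inr ⟨range e, ?_, range_nonempty e, perfect_range he hinj⟩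
      rintro _ ⟨α, rfl⟩
      exact heX α
  · exact hX.preimage continuous_outcome
  · by_cases hc : X.Countable
    · obtain ⟨σ, hσ⟩ := win_one hc
      exact Or.inl ⟨σ, fun z hz => hσ z hz⟩
    · right
      have hX' : AnalyticSet (emb '' X)ᶜ := by
        have h1 : (emb '' X)ᶜ = ⋃ i : Bool, (if i then (range emb)ᶜ else emb '' Xᶜ) := by
          ext y
          simp only [mem_compl_iff, mem_iUnion, Bool.exists_bool, Bool.false_eq_true, if_false,
            if_true]
          constructor
          · intro h
            by_cases hy : y ∈ range emb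
            · obtain ⟨b, rfl⟩ := hy
              exact Or.inl ⟨b, fun hb => h ⟨b, hb, rfl⟩, rfl⟩
            · exact Or.inr hy
          · rintro (⟨b, hb, rfl⟩ | hy) ⟨c, hc1, hc2⟩
            · exact hb (emb_injective hc2 ▸ hc1)
            · exact hy ⟨c, hc2⟩
        rw [h1]
        refine AnalyticSet.iUnion fun i => ?_
        cases i
        · exact hX.image_of_continuous continuous_emb
        · letI : MeasurableSpace (ℕ → ℕ) := borel (ℕ → ℕ)
          haveI : BorelSpace (ℕ → ℕ) := ⟨rfl⟩
          exact (isCompact_range continuous_emb).isClosed.measurableSet.compl.analyticSet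
      have hc' : ¬ (emb '' X).Countable := fun h =>
        hc ((h.preimage_of_injOn emb_injective.injOn).mono (subset_preimage_image emb X))
      obtain ⟨e, he, hinj, heX⟩ := perfect_set_property hcomp hX' hc'
      choose g hgX hge using heX
      have hg : g = fun α n => decide (e α n = 1) := by
        funext α n
        rw [← hge α]
        unfold emb
        cases g α n <;> simp
      have hgc : Continuous g := by
        rw [hg]
        refine continuous_pi fun n => ?_
        have h1 : Continuous fun α => e α n := (continuous_apply n).comp he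
        exact (continuous_of_discreteTopology (f := fun k : ℕ => decide (k = 1))).comp h1
      have hginj : Function.Injective g := by
        intro α β h
        apply hinj
        rw [← hge α, ← hge β, h]
      obtain ⟨τ, hτ⟩ := win_two hgc hginj hgX
      exact ⟨τ, fun z hz h => h (hτ z hz)⟩

end Pool.Agent.Results.MP_2900b9_lc.PerfectSetProperty
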